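import Pool.Agent.Helper84.CQ.GPa

set_option autoImplicit false

/-!
# Construction of the projections of the graph product (module GPb: `S_GP`)
-/

namespace CQ

open Monoid Monoid.CoprodI

section GPb

variable {n : ℕ} {F : Type} [Group F]

theorem ι_Lam_comm (i : ZMod n) (h : F) (u : CP n F) (hu : u ∈ Lam (n := n) (F := F) i) :
    ι i h * u = u * ι i h := by
  have key : Lam (n := n) (F := F) i ≤ Subgroup.centralizer {ι i h} := by
    apply sup_le
    · rintro _ ⟨g, rfl⟩
      rw [Subgroup.mem_centralizer_singleton_iff]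
      have := ι_comm (i - 1) g h
      rw [sub_add_cancel] at this
      exact this
    · rintro _ ⟨g, rfl⟩
      rw [Subgroup.mem_centralizer_singleton_iff]
      exact (ι_comm i h g).symm
  have := key hu
  rw [Subgroup.mem_centralizer_singleton_iff] at this
  exact this.symm

theorem kill_kill (i : ZMod n) (w : CP n F) : kill i (kill i w) = kill i w := by
  have : (kill i).comp (kill i) = (kill i : CP n F →* CP n F) := by
    apply CP.hom_ext
    intro j s
    by_cases h : j = i
    · subst h; simp [kill_ι_self]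
    · simp [kill_ι_ne h]
  exact DFunLike.congr_fun this w

theorem kill_Lam (h1 : (1 : ZMod n) ≠ 0) (i : ZMod n) (u : CP n F)
    (hu : u ∈ Lam (n := n) (F := F) i) : kill i u = u := by
  have key : Lam (n := n) (F := F) i ≤ MonoidHom.eqLocus (kill i) (MonoidHom.id _) := by
    apply sup_le
    · rintro _ ⟨g, rfl⟩
      show kill i (ι (i - 1) g) = ι (i - 1) g
      apply kill_ι_ne
      intro h
      apply h1
      have := sub_eq_self.1 h
      exact this
    · rintro _ ⟨g, rfl⟩
      show kill i (ι (i + 1) g) = ι (i + 1) g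
      apply kill_ι_ne
      intro h
      apply h1
      exact add_eq_left.1 h
  exact key hu

/-- `K_i` -/
noncomputable def Kg (i : ZMod n) : Subgroup (CP n F) :=
  (Lam (n := n) (F := F) i).comap (kill i)

/-- the index set -/
abbrev Cc (n : ℕ) (F : Type) [Group F] (i : ZMod n) : Type :=
  CP n F ⧸ (Kg i : Subgroup (CP n F))

/-- the base point -/
noncomputable abbrev c0 (n : ℕ) (F : Type) [Group F] (i : ZMod n) : Cc n F i :=
  ((1 : CP n F) : CP n F ⧸ (Kg i : Subgroup (CP n F)))

theorem mem_Kg (i : ZMod n) (w : CP n F) :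
    w ∈ (Kg i : Subgroup (CP n F)) ↔ kill i w ∈ Lam (n := n) (F := F) i := Iff.rfl

theorem smul_c0 (i : ZMod n) (g : CP n F) :
    g • c0 n F i = (g : CP n F ⧸ (Kg i : Subgroup (CP n F))) := by
  show ((g * 1 : CP n F) : CP n F ⧸ (Kg i : Subgroup (CP n F))) = _
  rw [mul_one]

theorem mk_kill (i : ZMod n) (g : CP n F) :
    ((kill i g : CP n F) : CP n F ⧸ (Kg i : Subgroup (CP n F))) = (g : CP n F ⧸ _) := by
  rw [QuotientGroup.eq, mem_Kg, map_mul, map_inv, kill_kill, inv_mul_cancel]
  exact one_mem _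

/-- the relabelling action on the free product -/
noncomputable def act (i : ZMod n) (g : CP n F) : FP (Cc n F i) F →* FP (Cc n F i) F :=
  pm (fun c => g • c)

theorem act_inj (i : ZMod n) (g : CP n F) : Function.Injective (fun c : Cc n F i => g • c) :=
  MulAction.injective g

theorem act_of (i : ZMod n) (g : CP n F) (c : Cc n F i) (h : F) :
    act i g (fof c h) = fof (g • c) h := pm_of _ _ _

theorem act_mul (i : ZMod n) (g g' : CP n F) (x : FP (Cc n F i) F) :
    act i (g * g') x = act i g (act i g' x) := by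
  unfold act
  rw [pm_comp]
  congr 2
  funext c
  exact mul_smul g g' c

theorem act_one (i : ZMod n) (x : FP (Cc n F i) F) : act i 1 x = x := by
  unfold act
  have : (fun c : Cc n F i => (1 : CP n F) • c) = id := by
    funext c; exact one_smul _ c
  rw [this, pm_id]

theorem act_hd (i : ZMod n) (g : CP n F) (x : FP (Cc n F i) F) (c : Cc n F i) :
    hd (g • c) (act i g x) = hd c x := pm_hd (act_inj i g) x c

theorem act_tl (i : ZMod n) (g : CP n F) (x : FP (Cc n F i) F) (c : Cc n F i) :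
    tl (g • c) (act i g x) = act i g (tl c x) := pm_tl (act_inj i g) x c

theorem act_fnrm (i : ZMod n) (g : CP n F) (ℓ : F → ℕ) (x : FP (Cc n F i) F) :
    fnrm ℓ (act i g x) = fnrm ℓ x := pm_fnrm (act_inj i g) ℓ x

/-- the action as automorphisms -/
noncomputable def actAut (i : ZMod n) : CP n F →* MulAut (FP (Cc n F i) F) where
  toFun g :=
    { toFun := act i g
      invFun := act i g⁻¹
      left_inv := fun x => by rw [← act_mul, inv_mul_cancel, act_one]
      right_inv := fun x => by rw [← act_mul, mul_inv_cancel, act_one]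
      map_mul' := fun x y => map_mul _ x y }
  map_one' := by
    ext x
    exact act_one i x
  map_mul' := by
    intro g g'
    ext x
    exact act_mul i g g' x

theorem actAut_apply (i : ZMod n) (g : CP n F) (x : FP (Cc n F i) F) :
    actAut i g x = act i g x := rfl

open Classical in
/-- the homomorphism to the semidirect product -/
noncomputable def θ (h1 : (1 : ZMod n) ≠ 0) (i : ZMod n) :
    CP n F →* (FP (Cc n F i) F) ⋊[actAut i] (CP n F) :=
  CP.lift (fun j => if j = i then SemidirectProduct.inl.comp (fof (c0 n F i))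
      else SemidirectProduct.inr.comp (ι j)) (by
    intro j g h
    by_cases hj : j = i
    · have hj1 : j + 1 ≠ i := by
        intro h2
        rw [hj] at h2
        exact h1 (add_eq_left.1 h2)
      rw [if_pos hj, if_neg hj1]
      simp only [MonoidHom.comp_apply]
      have hmem : ι (j + 1) h ∈ (Kg i : Subgroup (CP n F)) := by
        rw [mem_Kg, kill_ι_ne hj1, hj]
        exact Subgroup.mem_sup_right ⟨h, rfl⟩
      ext
      · rw [SemidirectProduct.mul_left, SemidirectProduct.mul_left]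
        simp only [SemidirectProduct.left_inl, SemidirectProduct.right_inl,
          SemidirectProduct.left_inr, SemidirectProduct.right_inr, map_one, one_mul, mul_one,
          actAut_apply, act_of]
        rw [smul_c0]
        have : ((ι (j + 1) h : CP n F) : CP n F ⧸ (Kg i : Subgroup (CP n F))) = c0 n F i := by
          rw [eq_comm, QuotientGroup.eq]
          simpa using hmem
        rw [this]
      · rw [SemidirectProduct.mul_right, SemidirectProduct.mul_right]
        simp
    · by_cases hj1 : j + 1 = i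
      · rw [if_neg hj, if_pos hj1]
        simp only [MonoidHom.comp_apply]
        have hmem : ι j g ∈ (Kg i : Subgroup (CP n F)) := by
          rw [mem_Kg, kill_ι_ne hj]
          have hji : j = i - 1 := by rw [← hj1]; simp
          rw [hji]
          exact Subgroup.mem_sup_left ⟨g, rfl⟩
        ext
        · rw [SemidirectProduct.mul_left, SemidirectProduct.mul_left]
          simp only [SemidirectProduct.left_inl, SemidirectProduct.right_inl,
            SemidirectProduct.left_inr, SemidirectProduct.right_inr, map_one, one_mul, mul_one,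
            actAut_apply, act_of]
          rw [smul_c0]
          have : ((ι j g : CP n F) : CP n F ⧸ (Kg i : Subgroup (CP n F))) = c0 n F i := by
            rw [eq_comm, QuotientGroup.eq]
            simpa using hmem
          rw [this]
        · rw [SemidirectProduct.mul_right, SemidirectProduct.mul_right]
          simp
      · rw [if_neg hj, if_neg hj1]
        simp only [MonoidHom.comp_apply]
        rw [← map_mul, ι_comm, map_mul])

/-- the cocycle `ν_i` -/
noncomputable def ν (h1 : (1 : ZMod n) ≠ 0) (i : ZMod n) (w : CP n F) : FP (Cc n F i) F :=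
  (θ h1 i w).left

theorem θ_right (h1 : (1 : ZMod n) ≠ 0) (i : ZMod n) (w : CP n F) :
    (θ h1 i w).right = kill i w := by
  have : SemidirectProduct.rightHom.comp (θ h1 i) = (kill i : CP n F →* CP n F) := by
    apply CP.hom_ext
    intro j s
    simp only [MonoidHom.comp_apply]
    unfold θ
    rw [CP.lift_ι]
    by_cases h : j = i
    · subst h; rw [if_pos rfl]; simp [kill_ι_self]
    · rw [if_neg h]; simp [kill_ι_ne h]
  exact DFunLike.congr_fun this w

theorem ν_mul (h1 : (1 : ZMod n) ≠ 0) (i : ZMod n) (w w' : CP n F) :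
    ν h1 i (w * w') = ν h1 i w * act i (kill i w) (ν h1 i w') := by
  unfold ν
  rw [map_mul, SemidirectProduct.mul_left, θ_right]
  rfl

theorem ν_one (h1 : (1 : ZMod n) ≠ 0) (i : ZMod n) : ν h1 i (1 : CP n F) = 1 := by
  unfold ν; rw [map_one]; rfl

theorem ν_ι_self (h1 : (1 : ZMod n) ≠ 0) (i : ZMod n) (s : F) :
    ν h1 i (ι i s) = fof (c0 n F i) s := by
  unfold ν θ
  rw [CP.lift_ι, if_pos rfl]
  rfl

theorem ν_ι_ne (h1 : (1 : ZMod n) ≠ 0) {i j : ZMod n} (hj : j ≠ i) (s : F) :
    ν h1 i (ι j s : CP n F) = 1 := by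
  unfold ν θ
  rw [CP.lift_ι, if_neg hj]
  rfl

/-- the section `ev` -/
noncomputable def ev (i : ZMod n) : FP (Cc n F i) F →* CP n F :=
  Monoid.CoprodI.lift (fun c => (MulAut.conj (kill i c.out)).toMonoidHom.comp (ι i))

theorem ev_of (i : ZMod n) (g : CP n F) (h : F) :
    ev i (fof (g : CP n F ⧸ (Kg i : Subgroup (CP n F))) h) = kill i g * ι i h * (kill i g)⁻¹ := by
  unfold ev
  rw [Monoid.CoprodI.lift_of]
  set g' : CP n F := (g : CP n F ⧸ (Kg i : Subgroup (CP n F))).out with hg'
  have h2 : (g' : CP n F ⧸ (Kg i : Subgroup (CP n F))) = g := by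
    rw [hg']; exact Quotient.out_eq' _
  rw [QuotientGroup.eq, mem_Kg, map_mul, map_inv] at h2
  have h3 := ι_Lam_comm i h _ h2
  show kill i g' * ι i h * (kill i g')⁻¹ = _
  have h4 : kill i g = kill i g' * ((kill i g')⁻¹ * kill i g) := by group
  rw [h4]
  set u := (kill i g')⁻¹ * kill i g
  calc kill i g' * ι i h * (kill i g')⁻¹ = kill i g' * (ι i h * u) * u⁻¹ * (kill i g')⁻¹ := by group
    _ = kill i g' * (u * ι i h) * u⁻¹ * (kill i g')⁻¹ := by rw [h3]
    _ = kill i g' * u * ι i h * (kill i g' * u)⁻¹ := by group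

theorem ev_ν (h1 : (1 : ZMod n) ≠ 0) (i : ZMod n) (w : CP n F) :
    ev i (ν h1 i w) * kill i w = w := by
  induction w using CP.induction_right with
  | h1 => rw [ν_one, map_one, map_one, one_mul]
  | hs w j s hw =>
    rw [ν_mul, map_mul, map_mul]
    by_cases h : j = i
    · subst h
      rw [ν_ι_self, act_of, smul_c0, ev_of, kill_kill, kill_ι_self, mul_one]
      calc ev j (ν h1 j w) * (kill j w * ι j s * (kill j w)⁻¹) * kill j w
          = (ev j (ν h1 j w) * kill j w) * ι j s := by group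
        _ = w * ι j s := by rw [hw]
    · rw [ν_ι_ne h1 h, map_one, map_one, mul_one, kill_ι_ne h, ← mul_assoc, hw]

theorem ν_kill (h1 : (1 : ZMod n) ≠ 0) (i : ZMod n) (w : CP n F) : ν h1 i (kill i w) = 1 := by
  induction w using CP.induction_right with
  | h1 => rw [map_one, ν_one]
  | hs w j s hw =>
    rw [map_mul]
    by_cases h : j = i
    · subst h
      rw [kill_ι_self, mul_one, hw]
    · rw [kill_ι_ne h, ν_mul, hw, ν_ι_ne h1 h, map_one, mul_one]

theorem kill_ev (i : ZMod n) (x : FP (Cc n F i) F) : kill i (ev i x) = 1 := by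
  induction x using fp_induction with
  | h1 => rw [map_one, map_one]
  | hc c h x _ _ ih =>
    rw [map_mul, map_mul, ih, mul_one]
    induction c using QuotientGroup.induction_on with
    | H g =>
      rw [ev_of, map_mul, map_mul, kill_ι_self, mul_one, ← map_mul, mul_inv_cancel, map_one]

theorem ν_ev (h1 : (1 : ZMod n) ≠ 0) (i : ZMod n) (x : FP (Cc n F i) F) :
    ν h1 i (ev i x) = x := by
  induction x using fp_induction with
  | h1 => rw [map_one, ν_one]
  | hc c h x _ _ ih =>
    rw [map_mul, ν_mul, kill_ev, act_one, ih]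
    congr 1
    induction c using QuotientGroup.induction_on with
    | H g =>
      rw [ev_of, ν_mul, ν_mul, ν_kill, one_mul, kill_kill, ν_ι_self, act_of, ← map_inv (kill i) g,
        ν_kill, map_one, mul_one, smul_c0, mk_kill]

theorem ν_inv (h1 : (1 : ZMod n) ≠ 0) (i : ZMod n) (w : CP n F) :
    ν h1 i w⁻¹ = act i (kill i w)⁻¹ (ν h1 i w)⁻¹ := by
  have h2 := ν_mul h1 i w⁻¹ w
  rw [inv_mul_cancel, ν_one, map_inv] at h2
  rw [map_inv]
  exact eq_inv_of_mul_eq_one_left h2.symm

theorem ν_diff (h1 : (1 : ZMod n) ≠ 0) (i : ZMod n) (a b : CP n F) :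
    ν h1 i (a⁻¹ * b) = act i (kill i a)⁻¹ ((ν h1 i a)⁻¹ * ν h1 i b) := by
  rw [ν_mul, ν_inv, map_inv (kill i), map_mul]

theorem ν_Lam (h1 : (1 : ZMod n) ≠ 0) (i : ZMod n) (u : CP n F)
    (hu : u ∈ Lam (n := n) (F := F) i) : ν h1 i u = 1 := by
  rw [← kill_Lam h1 i u hu, ν_kill]

theorem Lam_smul_c0 (h1 : (1 : ZMod n) ≠ 0) (i : ZMod n) (u : CP n F)
    (hu : u ∈ Lam (n := n) (F := F) i) : u • c0 n F i = c0 n F i := by
  rw [smul_c0, eq_comm, QuotientGroup.eq, inv_one, one_mul, mem_Kg, kill_Lam h1 i u hu]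
  exact hu

/-! ### The projections and partial norms -/

/-- projection -/
noncomputable def prr (h1 : (1 : ZMod n) ≠ 0) (i : ZMod n) (w : CP n F) : F :=
  hd (c0 n F i) (ν h1 i w)

/-- partial norm -/
noncomputable def mm (h1 : (1 : ZMod n) ≠ 0) (ℓ : F → ℕ) (i : ZMod n) (w : CP n F) : ℕ :=
  fnrm ℓ (ν h1 i w)

/-- tail norm -/
noncomputable def tt (h1 : (1 : ZMod n) ≠ 0) (ℓ : F → ℕ) (i : ZMod n) (w : CP n F) : ℕ :=
  fnrm ℓ (tl (c0 n F i) (ν h1 i w))

variable (h1 : (1 : ZMod n) ≠ 0) {ℓ : F → ℕ}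

theorem mm_eq (hℓ : IsNorm ℓ) (i : ZMod n) (w : CP n F) :
    mm h1 ℓ i w = ℓ (prr h1 i w) + tt h1 ℓ i w := fnrm_eq hℓ _ _

theorem mm_inv (hℓ : IsNorm ℓ) (i : ZMod n) (w : CP n F) : mm h1 ℓ i w⁻¹ = mm h1 ℓ i w := by
  unfold mm; rw [ν_inv, act_fnrm, fnrm_inv hℓ]

theorem mm_mul (hℓ : IsNorm ℓ) (i : ZMod n) (w w' : CP n F) :
    mm h1 ℓ i (w * w') ≤ mm h1 ℓ i w + mm h1 ℓ i w' := by
  unfold mm
  rw [ν_mul]
  have := fnrm_mul_le hℓ (ν h1 i w) (act i (kill i w) (ν h1 i w'))
  rwa [act_fnrm] at this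

theorem mm_ι_self (hℓ : IsNorm ℓ) (i : ZMod n) (h : F) : mm h1 ℓ i (ι i h) = ℓ h := by
  unfold mm; rw [ν_ι_self, fnrm_of hℓ]

theorem mm_ι_ne (i j : ZMod n) (h : F) (hj : j ≠ i) : mm h1 ℓ i (ι j h) = 0 := by
  unfold mm; rw [ν_ι_ne h1 hj, fnrm_one]

theorem mm_mul_zero (hℓ : IsNorm ℓ) (i : ZMod n) (u w : CP n F) (hu : mm h1 ℓ i u = 0) :
    mm h1 ℓ i (u * w) = mm h1 ℓ i w := by
  unfold mm at hu ⊢
  rw [fnrm_eq_zero hℓ] at hu
  rw [ν_mul, hu, one_mul, act_fnrm]

theorem mm_zero_iff (hℓ : IsNorm ℓ) (i : ZMod n) (w : CP n F) :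
    mm h1 ℓ i w = 0 ↔ kill i w = w := by
  unfold mm
  rw [fnrm_eq_zero hℓ]
  constructor
  · intro h
    have := ev_ν h1 i w
    rwa [h, map_one, one_mul] at this
  · intro h
    rw [← h, ν_kill]

theorem prr_one (i : ZMod n) : prr h1 i (1 : CP n F) = 1 := by
  unfold prr; rw [ν_one, hd_one]

theorem prr_ι_mul (i : ZMod n) (h : F) (w : CP n F) :
    prr h1 i (ι i h * w) = h * prr h1 i w := by
  unfold prr; rw [ν_mul, ν_ι_self, kill_ι_self, act_one, hd_of_mul]

theorem tt_ι_mul (i : ZMod n) (h : F) (w : CP n F) :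
    tt h1 ℓ i (ι i h * w) = tt h1 ℓ i w := by
  unfold tt; rw [ν_mul, ν_ι_self, kill_ι_self, act_one, tl_of_mul]

theorem prr_Lam_mul (i : ZMod n) (u w : CP n F) (hu : u ∈ Lam (n := n) (F := F) i) :
    prr h1 i (u * w) = prr h1 i w := by
  unfold prr
  rw [ν_mul, ν_Lam h1 i u hu, one_mul, kill_Lam h1 i u hu]
  conv_lhs => rw [← Lam_smul_c0 h1 i u hu]
  rw [act_hd]

theorem tt_Lam_mul (i : ZMod n) (u w : CP n F) (hu : u ∈ Lam (n := n) (F := F) i) :
    tt h1 ℓ i (u * w) = tt h1 ℓ i w := by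
  unfold tt
  rw [ν_mul, ν_Lam h1 i u hu, one_mul, kill_Lam h1 i u hu]
  conv_lhs => rw [← Lam_smul_c0 h1 i u hu]
  rw [act_tl, act_fnrm]

theorem prr_mul_ne (i j : ZMod n) (w : CP n F) (s : F) (hj : j ≠ i) :
    prr h1 i (w * ι j s) = prr h1 i w := by
  unfold prr; rw [ν_mul, ν_ι_ne h1 hj, map_one, mul_one]

theorem prr_mul_self (i : ZMod n) (w : CP n F) (s : F) (h : prr h1 i (w * ι i s) ≠ prr h1 i w) :
    w ∈ St (n := n) (F := F) i := by
  unfold prr at h
  rw [ν_mul, ν_ι_self, act_of] at h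
  obtain ⟨h2, h3⟩ := hd_mul_of_ne _ _ _ _ h
  rw [smul_c0, eq_comm, QuotientGroup.eq, inv_one, one_mul, mem_Kg, kill_kill] at h2
  have h4 := hd_mul_tl (c0 n F i) (ν h1 i w)
  rw [h3, mul_one] at h4
  have h5 := ev_ν h1 i w
  rw [← h4, ev_of, map_one, inv_one, mul_one, one_mul] at h5
  rw [← h5]
  exact mul_mem (Subgroup.mem_sup_left ⟨_, rfl⟩) (Subgroup.mem_sup_right h2)

theorem mm_sep (hℓ : IsNorm ℓ) (i : ZMod n) (a b : CP n F) (h : prr h1 i a ≠ prr h1 i b) :
    mm h1 ℓ i (a⁻¹ * b) = tt h1 ℓ i a + ℓ ((prr h1 i a)⁻¹ * prr h1 i b) + tt h1 ℓ i b := by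
  unfold mm
  rw [ν_diff, act_fnrm]
  exact fnrm_sep hℓ h

theorem mm_le (hℓ : IsNorm ℓ) (i : ZMod n) (a b : CP n F) :
    mm h1 ℓ i (a⁻¹ * b) ≤ tt h1 ℓ i a + ℓ ((prr h1 i a)⁻¹ * prr h1 i b) + tt h1 ℓ i b := by
  unfold mm
  rw [ν_diff, act_fnrm]
  exact fnrm_sep_le hℓ _ _ _

/-! ### The decomposition -/

/-- the list of walls -/
noncomputable def go (i : ZMod n) (a : CP n F) :
    FP (Cc n F i) F → List (Σ _ : Cc n F i, F) → List (CP n F × F)
  | _, [] => []
  | p, s :: rest => (a * ev i p * kill i s.1.out, s.2) :: go i a (p * fof s.1 s.2) rest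

theorem go_split (i : ZMod n) (a : CP n F) (l : List (Σ _ : Cc n F i, F)) :
    ∀ (p : FP (Cc n F i) F) (l₁ : List (CP n F × F)) (zs : CP n F × F) (l₂ : List (CP n F × F)),
    go i a p l = l₁ ++ zs :: l₂ → ∃ (l₁' : List (Σ _ : Cc n F i, F)) (s : Σ _ : Cc n F i, F)
      (l₂' : List (Σ _ : Cc n F i, F)), l = l₁' ++ s :: l₂' ∧
      zs = (a * ev i (p * lprod l₁') * kill i s.1.out, s.2) ∧
      (l₁.map fun q => ℓ q.2) = (l₁'.map fun q => ℓ q.2) ∧
      (l₂.map fun q => ℓ q.2) = (l₂'.map fun q => ℓ q.2) := by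
  have hmap : ∀ (l : List (Σ _ : Cc n F i, F)) (p : FP (Cc n F i) F),
      ((go i a p l).map fun q => ℓ q.2) = (l.map fun q => ℓ q.2) := by
    intro l
    induction l with
    | nil => intro p; simp [go]
    | cons s rest ih => intro p; simp [go, ih]
  induction l with
  | nil =>
    intro p l₁ zs l₂ h
    simp [go] at h
  | cons s rest ih =>
    intro p l₁ zs l₂ h
    rw [go] at h
    cases l₁ with
    | nil =>
      rw [List.nil_append, List.cons.injEq] at h
      refine ⟨[], s, rest, by simp, ?_, by simp, ?_⟩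
      · rw [← h.1]; simp
      · rw [← h.2, hmap]
    | cons z l₁ =>
      rw [List.cons_append, List.cons.injEq] at h
      obtain ⟨l₁', s', l₂', e1, e2, e3, e4⟩ := ih _ _ _ _ h.2
      refine ⟨s :: l₁', s', l₂', by simp [e1], ?_, ?_, e4⟩
      · rw [e2, lprod_cons, mul_assoc p]
      · rw [List.map_cons, List.map_cons, e3, ← h.1]

theorem mm_decomp (hℓ : IsNorm ℓ) (i : ZMod n) (a b : CP n F) : ∃ l : List (CP n F × F),
    mm h1 ℓ i (a⁻¹ * b) = (l.map fun p => ℓ p.2).sum ∧
    ∀ (l₁ : List (CP n F × F)) (zs : CP n F × F) (l₂ : List (CP n F × F)), l = l₁ ++ zs :: l₂ →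
      zs.2 ≠ 1 ∧ prr h1 i (zs.1⁻¹ * a) = 1 ∧ prr h1 i (zs.1⁻¹ * b) = zs.2 ∧
      tt h1 ℓ i (zs.1⁻¹ * a) = (l₁.map fun p => ℓ p.2).sum ∧
      tt h1 ℓ i (zs.1⁻¹ * b) = (l₂.map fun p => ℓ p.2).sum := by
  set w := a⁻¹ * b with hw
  set x := ν h1 i w with hx
  refine ⟨go i a 1 (wd' x).toList, ?_, ?_⟩
  · have hmap : ∀ (l : List (Σ _ : Cc n F i, F)) (p : FP (Cc n F i) F),
        ((go i a p l).map fun q => ℓ q.2) = (l.map fun q => ℓ q.2) := by
      intro l
      induction l with
      | nil => intro p; simp [go]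
      | cons s rest ih => intro p; simp [go, ih]
    rw [hmap]
    rfl
  · intro l₁ zs l₂ hl
    obtain ⟨l₁', s, l₂', e1, e2, e3, e4⟩ := go_split (ℓ := ℓ) i a _ _ _ _ _ hl
    have hred : Red (l₁' ++ s :: l₂') := e1 ▸ red_wd' x
    obtain ⟨r1, r2, r3, r4⟩ := red_split hred
    have hxe : x = lprod l₁' * (fof s.1 s.2 * lprod l₂') := by
      rw [← lprod_wd' x, e1, lprod_append, lprod_cons]
    set p := lprod l₁' with hp
    set g : CP n F := s.1.out with hg
    have hgs : (g : CP n F ⧸ (Kg i : Subgroup (CP n F))) = s.1 := by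
      rw [hg]; exact Quotient.out_eq' _
    rw [e2, one_mul, e3, e4]
    simp only
    -- the basic computation
    have hc : (kill i g)⁻¹ • s.1 = c0 n F i := by
      rw [inv_smul_eq_iff, smul_c0, mk_kill, hgs]
    have key : ∀ y : CP n F, ν h1 i ((a * ev i p * kill i g)⁻¹ * (a * y)) =
        act i (kill i g)⁻¹ (p⁻¹ * ν h1 i y) := by
      intro y
      have e5 : (a * ev i p * kill i g)⁻¹ * (a * y) = (kill i g)⁻¹ * (ev i p⁻¹ * y) := by
        rw [map_inv]; group
      rw [e5, ν_mul, ← map_inv (kill i) g, ν_kill, one_mul, kill_kill, ν_mul, ν_ev, kill_ev,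
        act_one]
    have ka := key 1
    rw [mul_one, ν_one, mul_one] at ka
    have kb := key w
    rw [hw, mul_inv_cancel_left, ← hw, ← hx, hxe, inv_mul_cancel_left] at kb
    have g1 : prr h1 i ((a * ev i p * kill i g)⁻¹ * a) = 1 := by
      unfold prr
      rw [ka, ← hc, act_hd, r2]
    have g2 : prr h1 i ((a * ev i p * kill i g)⁻¹ * b) = s.2 := by
      unfold prr
      rw [kb, ← hc, act_hd, hd_of_mul, r3, mul_one]
    have g3 : tt h1 ℓ i ((a * ev i p * kill i g)⁻¹ * a) = fnrm ℓ p⁻¹ := by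
      unfold tt
      rw [ka, ← hc, act_tl, act_fnrm, tl_eq_self r2]
    have g4 : tt h1 ℓ i ((a * ev i p * kill i g)⁻¹ * b) = fnrm ℓ (lprod l₂') := by
      unfold tt
      rw [kb, ← hc, act_tl, act_fnrm, tl_of_mul, tl_eq_self r3]
    refine ⟨r1, g1, g2, ?_, ?_⟩
    · rw [g3, fnrm_inv hℓ]; exact (r4 ℓ).1
    · rw [g4]; exact (r4 ℓ).2

/-! ### The syllable norm -/

theorem mm_sum_ι [NeZero n] (hℓ : IsNorm ℓ) (j : ZMod n) (h : F) :
    ∑ i, mm h1 ℓ i (ι j h : CP n F) = ℓ h := by
  rw [Finset.sum_eq_single j]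
  · exact mm_ι_self h1 hℓ j h
  · intro i _ hi
    exact mm_ι_ne h1 i j h (Ne.symm hi)
  · intro h; exact absurd (Finset.mem_univ _) h

theorem mm_one (i : ZMod n) : mm h1 ℓ i (1 : CP n F) = 0 := by
  unfold mm; rw [ν_one, fnrm_one]

theorem mm_le_expr [NeZero n] (hℓ : IsNorm ℓ) (l : List (ZMod n × F)) :
    ∑ i, mm h1 ℓ i (l.map fun p => (ι p.1 p.2 : CP n F)).prod ≤ (l.map fun p => ℓ p.2).sum := by
  induction l with
  | nil => simp [mm_one]
  | cons p l ih =>
    rw [List.map_cons, List.prod_cons, List.map_cons, List.sum_cons]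
    calc ∑ i, mm h1 ℓ i (ι p.1 p.2 * (l.map fun p => (ι p.1 p.2 : CP n F)).prod)
        ≤ ∑ i, (mm h1 ℓ i (ι p.1 p.2 : CP n F) +
          mm h1 ℓ i (l.map fun p => (ι p.1 p.2 : CP n F)).prod) :=
          Finset.sum_le_sum fun i _ => mm_mul h1 hℓ i _ _
      _ = ℓ p.2 + ∑ i, mm h1 ℓ i (l.map fun p => (ι p.1 p.2 : CP n F)).prod := by
          rw [Finset.sum_add_distrib, mm_sum_ι h1 hℓ]
      _ ≤ _ := by omega

/-- right multiplication by elements of `St i` does not change `pr j` for `j` not adjacent -/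
theorem prr_mul_St (i j : ZMod n) (hij : j ≠ i) (hij1 : j ≠ i - 1) (hij2 : j ≠ i + 1)
    (u : CP n F) (hu : u ∈ St (n := n) (F := F) i) (w : CP n F) :
    prr h1 j (w * u) = prr h1 j w := by
  let S : Subgroup (CP n F) :=
    { carrier := {u | ∀ w, prr h1 j (w * u) = prr h1 j w}
      one_mem' := by intro w; rw [mul_one]
      mul_mem' := by
        intro a b ha hb w
        rw [← mul_assoc, hb, ha]
      inv_mem' := by
        intro a ha w
        have := ha (w * a⁻¹)
        rw [inv_mul_cancel_right] at this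
        exact this.symm }
  have hk : ∀ k : ZMod n, j ≠ k → (ι k : F →* CP n F).range ≤ S := by
    rintro k hk _ ⟨s, rfl⟩ w
    exact prr_mul_ne h1 j k w s (Ne.symm hk)
  have key : St (n := n) (F := F) i ≤ S :=
    sup_le (hk i hij) (sup_le (hk _ hij1) (hk _ hij2))
  exact key hu w

/-- (a) -/
theorem prr_star (i j : ZMod n) (hij : j ≠ i) (hij1 : j ≠ i - 1) (hij2 : j ≠ i + 1)
    (w : CP n F) : prr h1 i w = 1 ∨ prr h1 j w = 1 := by
  induction w using CP.induction_right with
  | h1 => left; exact prr_one h1 i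
  | hs w k s hw =>
    by_cases c1 : prr h1 i (w * ι k s) = prr h1 i w
    · by_cases c2 : prr h1 j (w * ι k s) = prr h1 j w
      · rw [c1, c2]; exact hw
      · left
        have hkj : k = j := by
          by_contra h; exact c2 (prr_mul_ne h1 j k w s h)
        subst hkj
        have hSt := prr_mul_self h1 k w s c2
        rw [c1]
        have := prr_mul_St h1 k i (Ne.symm hij) (fun h => hij2 (by rw [h]; simp))
          (fun h => hij1 (by rw [h]; simp)) w hSt 1
        rw [one_mul, prr_one] at this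
        exact this
    · right
      have hki : k = i := by
        by_contra h; exact c1 (prr_mul_ne h1 i k w s h)
      subst hki
      have hSt := prr_mul_self h1 k w s c1
      rw [prr_mul_ne h1 j k w s (Ne.symm hij)]
      have := prr_mul_St h1 k j hij hij1 hij2 w hSt 1
      rw [one_mul, prr_one] at this
      exact this

/-- `x` is a product of at most `k` syllables -/
def Syl (k : ℕ) (x : CP n F) : Prop :=
  ∃ l : List (ZMod n × F), l.length ≤ k ∧ (l.map fun p => (ι p.1 p.2 : CP n F)).prod = x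

theorem Syl.cons {k : ℕ} {x : CP n F} (h : Syl k x) (i : ZMod n) (s : F) :
    Syl (k + 1) (ι i s * x) := by
  obtain ⟨l, hl, rfl⟩ := h
  exact ⟨(i, s) :: l, by simpa using hl, by simp⟩

theorem Syl.mono {k k' : ℕ} {x : CP n F} (h : Syl k x) (hk : k ≤ k') : Syl k' x := by
  obtain ⟨l, hl, rfl⟩ := h
  exact ⟨l, hl.trans hk, rfl⟩

theorem exists_Syl (x : CP n F) : ∃ k, Syl k x := by
  induction x using CP.induction_right with
  | h1 => exact ⟨0, [], by simp, by simp⟩
  | hs w i s hw =>
    obtain ⟨k, l, hl, rfl⟩ := hw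
    exact ⟨k + 1, l ++ [(i, s)], by simpa using hl, by simp⟩

/-- (b) -/
theorem syl_step (k : ℕ) : ∀ (x : CP n F) (i : ZMod n), Syl k x → prr h1 i x ≠ 1 →
    ∃ k', k' < k ∧ Syl k' (ι i (prr h1 i x)⁻¹ * x) := by
  induction k using Nat.strong_induction_on with
  | _ k ih =>
    intro x i hx hpr
    obtain ⟨l, hl, hlx⟩ := hx
    cases l with
    | nil =>
      exfalso
      simp at hlx
      rw [← hlx, prr_one] at hpr
      exact hpr rfl
    | cons p l =>
      obtain ⟨j, h⟩ := p
      set x' : CP n F := (l.map fun p => (ι p.1 p.2 : CP n F)).prod with hx'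
      have hxx : x = ι j h * x' := by rw [← hlx]; simp [hx']
      have hlen : l.length + 1 ≤ k := by simpa using hl
      have hS : Syl (k - 1) x' := ⟨l, by omega, rfl⟩
      have hk : k - 1 < k := by omega
      by_cases hh : h = 1
      · have hxx' : x = x' := by rw [hxx, hh, map_one, one_mul]
        rw [hxx'] at hpr ⊢
        obtain ⟨k', hk', h3⟩ := ih (k - 1) hk x' i hS hpr
        exact ⟨k', by omega, h3⟩
      · by_cases hji : j = i
        · subst hji
          by_cases hp' : prr h1 j x' = 1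
          · refine ⟨k - 1, hk, ?_⟩
            rw [hxx, prr_ι_mul, hp', mul_one, ← mul_assoc, ← map_mul, inv_mul_cancel, map_one,
              one_mul]
            exact hS
          · obtain ⟨k', hk', h3⟩ := ih (k - 1) hk x' j hS hp'
            refine ⟨k', by omega, ?_⟩
            rw [hxx, prr_ι_mul, mul_inv_rev, map_mul, mul_assoc, ← mul_assoc (ι j h⁻¹),
              ← map_mul, inv_mul_cancel, map_one, one_mul]
            exact h3
        · by_cases hadj : j = i - 1 ∨ j = i + 1
          · have hLam : (ι j h : CP n F) ∈ Lam (n := n) (F := F) i := by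
              rcases hadj with rfl | rfl
              · exact Subgroup.mem_sup_left ⟨h, rfl⟩
              · exact Subgroup.mem_sup_right ⟨h, rfl⟩
            have hpx : prr h1 i x = prr h1 i x' := by rw [hxx, prr_Lam_mul h1 i _ _ hLam]
            rw [hpx] at hpr ⊢
            obtain ⟨k', hk', h3⟩ := ih (k - 1) hk x' i hS hpr
            refine ⟨k' + 1, by omega, ?_⟩
            rw [hxx, ← mul_assoc, ι_Lam_comm i _ _ hLam, mul_assoc]
            exact h3.cons j h
          · push Not at hadj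
            have hst := prr_star h1 i j hji hadj.1 hadj.2 x
            have hj1 : prr h1 j x = 1 := by
              rcases hst with h4 | h4
              · exact absurd h4 hpr
              · exact h4
            rw [hxx, prr_ι_mul] at hj1
            have hj2 : prr h1 j x' = h⁻¹ := (inv_eq_of_mul_eq_one_right hj1).symm
            have hj3 : prr h1 j x' ≠ 1 := by rw [hj2]; simpa using hh
            obtain ⟨k', hk', h3⟩ := ih (k - 1) hk x' j hS hj3
            rw [hj2, inv_inv, ← hxx] at h3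
            obtain ⟨k'', hk'', h4⟩ := ih k' (by omega) x i h3 hpr
            exact ⟨k'', by omega, h4⟩

/-- (c) -/
theorem eq_one_of_prr (k : ℕ) : ∀ x : CP n F, Syl k x → (∀ i, prr h1 i x = 1) → x = 1 := by
  induction k using Nat.strong_induction_on with
  | _ k ih =>
    intro x hx hpr
    obtain ⟨l, hl, hlx⟩ := hx
    cases l with
    | nil => simpa using hlx.symm
    | cons p l =>
      obtain ⟨j, h⟩ := p
      set x' : CP n F := (l.map fun p => (ι p.1 p.2 : CP n F)).prod with hx'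
      have hxx : x = ι j h * x' := by rw [← hlx]; simp [hx']
      have hlen : l.length + 1 ≤ k := by simpa using hl
      have hS : Syl (k - 1) x' := ⟨l, by omega, rfl⟩
      have hk : k - 1 < k := by omega
      by_cases hh : h = 1
      · have hxx' : x = x' := by rw [hxx, hh, map_one, one_mul]
        rw [hxx'] at hpr ⊢
        exact ih (k - 1) hk x' hS hpr
      · have hj1 := hpr j
        rw [hxx, prr_ι_mul] at hj1
        have hj2 : prr h1 j x' = h⁻¹ := (inv_eq_of_mul_eq_one_right hj1).symm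
        have hj3 : prr h1 j x' ≠ 1 := by rw [hj2]; simpa using hh
        obtain ⟨k', hk', h3⟩ := syl_step h1 (k - 1) x' j hS hj3
        rw [hj2, inv_inv, ← hxx] at h3
        exact ih k' (by omega) x h3 hpr

/-- (d) -/
theorem exists_expr [NeZero n] (hℓ : IsNorm ℓ) (k : ℕ) : ∀ x : CP n F, Syl k x →
    ∃ l : List (ZMod n × F), (l.map fun p => (ι p.1 p.2 : CP n F)).prod = x ∧
      (l.map fun p => ℓ p.2).sum = ∑ i, mm h1 ℓ i x := by
  induction k using Nat.strong_induction_on with
  | _ k ih =>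
    intro x hx
    by_cases h : ∀ i, prr h1 i x = 1
    · have := eq_one_of_prr h1 k x hx h
      subst this
      exact ⟨[], by simp, by simp [mm_one]⟩
    · push Not at h
      obtain ⟨i, hi⟩ := h
      obtain ⟨k', hk', h3⟩ := syl_step h1 k x i hx hi
      obtain ⟨l, hl1, hl2⟩ := ih k' hk' _ h3
      refine ⟨(i, prr h1 i x) :: l, ?_, ?_⟩
      · rw [List.map_cons, List.prod_cons, hl1, ← mul_assoc, ← map_mul, mul_inv_cancel, map_one,
          one_mul]
      · rw [List.map_cons, List.sum_cons, hl2]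
        have hterm : ∀ j, mm h1 ℓ j x = (if j = i then ℓ (prr h1 i x) else 0) +
            mm h1 ℓ j (ι i (prr h1 i x)⁻¹ * x) := by
          intro j
          by_cases hj : j = i
          · subst hj
            rw [if_pos rfl, mm_eq h1 hℓ j x, mm_eq h1 hℓ j (ι j _ * x), prr_ι_mul, tt_ι_mul,
              inv_mul_cancel, (hℓ.eq_zero 1).2 rfl, zero_add]
          · rw [if_neg hj, zero_add, mm_mul_zero h1 hℓ]
            exact mm_ι_ne h1 j i _ (Ne.symm hj)
        rw [Finset.sum_congr rfl fun j _ => hterm j, Finset.sum_add_distrib]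
        simp

theorem gN_eq_sum [NeZero n] (hℓ : IsNorm ℓ) (w : CP n F) : gN ℓ w = ∑ i, mm h1 ℓ i w := by
  apply le_antisymm
  · obtain ⟨k, hk⟩ := exists_Syl w
    obtain ⟨l, hl1, hl2⟩ := exists_expr h1 hℓ k w hk
    unfold gN
    exact Nat.sInf_le ⟨l, hl1, hl2⟩
  · unfold gN
    obtain ⟨k, hk⟩ := exists_Syl w
    obtain ⟨l0, hl1, hl2⟩ := exists_expr h1 hℓ k w hk
    have hne : {s | ∃ l : List (ZMod n × F), (l.map fun p => (ι p.1 p.2 : CP n F)).prod = w ∧
      (l.map fun p => ℓ p.2).sum = s}.Nonempty := ⟨_, l0, hl1, rfl⟩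
    obtain ⟨l, hl3, hl4⟩ := Nat.sInf_mem hne
    rw [← hl4, ← hl3]
    exact mm_le_expr h1 hℓ l

/-- the structure `GP` -/
noncomputable def theGP (h1 : (1 : ZMod n) ≠ 0) [NeZero n] (hℓ : IsNorm ℓ) : GP n F ℓ where
  pr := prr h1
  m := mm h1 ℓ
  t := tt h1 ℓ
  N_eq := gN_eq_sum h1 hℓ
  m_eq := mm_eq h1 hℓ
  m_inv := mm_inv h1 hℓ
  m_mul := mm_mul h1 hℓ
  m_ι_self := mm_ι_self h1 hℓ
  m_ι_ne := mm_ι_ne h1
  m_mul_zero := mm_mul_zero h1 hℓ
  m_zero_iff := mm_zero_iff h1 hℓ
  pr_one := prr_one h1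
  pr_ι_mul := prr_ι_mul h1
  pr_Lam_mul := prr_Lam_mul h1
  pr_mul_ne := prr_mul_ne h1
  pr_mul_self := prr_mul_self h1
  t_ι_mul := tt_ι_mul h1
  t_Lam_mul := tt_Lam_mul h1
  sep := mm_sep h1 hℓ
  m_le := mm_le h1 hℓ
  decomp := mm_decomp h1 hℓ

end GPb

theorem mod_GP : S_GP := by
  intro n _ hn F _ ℓ hℓ
  have h1 : (1 : ZMod n) ≠ 0 := by
    have : Fact (1 < n) := ⟨by omega⟩
    exact one_ne_zero
  exact ⟨theGP h1 hℓ⟩

end CQ
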