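import Pool.Agent.Helper28.CQ.Stmts

set_option autoImplicit false

/-!
# Toolkit for free products of copies of one group

`hd c x` is the first syllable of `x` if it has index `c`, and `1` otherwise; `tl c x` is the rest:
`x = fof c (hd c x) * tl c x`.
-/

namespace CQ

open Monoid Monoid.CoprodI

section Toolkit

open Classical

variable {I F : Type} [Group F]

/-- the reduced word of `x` -/
noncomputable def wd' (x : FP I F) : Word (fun _ : I => F) := Word.equiv x

theorem wd'_mul (x y : FP I F) : wd' (x * y) = x • wd' y := by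
  show (x * y) • (Word.empty : Word (fun _ : I => F)) = x • (y • Word.empty)
  rw [mul_smul]

theorem wd'_prod (w : Word (fun _ : I => F)) : wd' w.prod = w := Word.equiv.right_inv w

theorem prod_wd' (x : FP I F) : (wd' x).prod = x := Word.equiv.left_inv x

theorem wd'_one : wd' (1 : FP I F) = Word.empty := by
  show (1 : FP I F) • (Word.empty : Word (fun _ : I => F)) = Word.empty
  rw [one_smul]

/-- first syllable, if it has index `c` -/
noncomputable def hd (c : I) (x : FP I F) : F := (Word.equivPair c (wd' x)).head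

/-- the rest -/
noncomputable def tl (c : I) (x : FP I F) : FP I F := (Word.equivPair c (wd' x)).tail.prod

theorem hd_mul_tl (c : I) (x : FP I F) : fof c (hd c x) * tl c x = x := by
  have h := Word.prod_rcons (Word.equivPair c (wd' x))
  have h2 : Word.rcons (Word.equivPair c (wd' x)) = wd' x := by
    rw [← Word.equivPair_symm]; simp
  rw [h2, prod_wd'] at h
  exact h.symm

theorem hd_of_mul (c : I) (h : F) (x : FP I F) : hd c (fof c h * x) = h * hd c x := by
  unfold hd
  rw [wd'_mul]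
  have := Word.equivPair_smul_same (M := fun _ : I => F) (i := c) h (wd' x)
  rw [this]

theorem tl_of_mul (c : I) (h : F) (x : FP I F) : tl c (fof c h * x) = tl c x := by
  unfold tl
  rw [wd'_mul]
  have := Word.equivPair_smul_same (M := fun _ : I => F) (i := c) h (wd' x)
  rw [this]

theorem hd_one (c : I) : hd c (1 : FP I F) = 1 := by
  unfold hd
  rw [wd'_one]
  rw [Word.equivPair_eq_of_fstIdx_ne (by simp [Word.fstIdx, Word.empty])]

theorem tl_one (c : I) : tl c (1 : FP I F) = 1 := by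
  have h := hd_mul_tl c (1 : FP I F)
  rw [hd_one, map_one, one_mul] at h
  exact h

theorem hd_of (c : I) (h : F) : hd c (fof c h) = h := by
  have := hd_of_mul c h (1 : FP I F)
  rw [mul_one, hd_one, mul_one] at this
  exact this

theorem tl_of (c : I) (h : F) : tl c (fof c h : FP I F) = 1 := by
  have := tl_of_mul c h (1 : FP I F)
  rw [mul_one, tl_one] at this
  exact this

theorem hd_eq_one_iff (c : I) (x : FP I F) : hd c x = 1 ↔ (wd' x).fstIdx ≠ some c := by
  constructor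
  · intro h h2
    have h3 : Word.rcons (Word.equivPair c (wd' x)) = wd' x := by
      rw [← Word.equivPair_symm]; simp
    have h4 : (Word.equivPair c (wd' x)).head = 1 := h
    rw [Word.rcons, dif_pos h4] at h3
    apply (Word.equivPair c (wd' x)).fstIdx_ne
    rw [h3]; exact h2
  · intro h
    unfold hd
    rw [Word.equivPair_eq_of_fstIdx_ne h]

theorem hd_tl (c : I) (x : FP I F) : hd c (tl c x) = 1 := by
  rw [hd_eq_one_iff]
  unfold tl
  rw [wd'_prod]
  exact (Word.equivPair c (wd' x)).fstIdx_ne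

theorem tl_eq_self {c : I} {x : FP I F} (h : hd c x = 1) : tl c x = x := by
  have h2 := hd_mul_tl c x
  rw [h, map_one, one_mul] at h2
  exact h2

/-- the reduced word of `h x` when `x` does not start with index `c` -/
theorem wd'_cons {c : I} {h : F} {x : FP I F} (hx : hd c x = 1) (hh : h ≠ 1) :
    wd' (fof c h * x) = Word.cons h (wd' x) ((hd_eq_one_iff c x).1 hx) hh := by
  rw [wd'_mul]
  exact (Word.cons_eq_smul (M := fun _ : I => F)).symm

theorem hd_of_mul_ne {c d : I} {h : F} {x : FP I F} (hx : hd d x = 1) (hh : h ≠ 1) (hcd : c ≠ d) :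
    hd c (fof d h * x) = 1 := by
  rw [hd_eq_one_iff, wd'_cons hx hh]
  rw [Word.fstIdx_cons]
  intro h2
  exact hcd (Option.some.inj h2).symm

/-- at most one head is nontrivial -/
theorem hd_unique {c d : I} {x : FP I F} (hd1 : hd d x ≠ 1) (hcd : c ≠ d) : hd c x = 1 := by
  rw [← hd_mul_tl d x]
  exact hd_of_mul_ne (hd_tl d x) hd1 hcd

/-- induction on reduced words -/
theorem fp_induction {p : FP I F → Prop} (h1 : p 1)
    (hc : ∀ (c : I) (h : F) (x : FP I F), h ≠ 1 → hd c x = 1 → p x → p (fof c h * x))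
    (x : FP I F) : p x := by
  have key : ∀ w : Word (fun _ : I => F), p w.prod := by
    intro w
    induction w using Word.consRecOn with
    | empty => simpa using h1
    | cons c h w h2 h3 ih =>
      rw [Word.prod_cons]
      apply hc c h _ h3 _ ih
      rw [hd_eq_one_iff, wd'_prod]
      exact h2
  have := key (wd' x)
  rwa [prod_wd'] at this

theorem fnrm_def (ℓ : F → ℕ) (x : FP I F) :
    fnrm ℓ x = ((wd' x).toList.map (fun p => ℓ p.2)).sum := rfl

theorem fnrm_one (ℓ : F → ℕ) : fnrm ℓ (1 : FP I F) = 0 := by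
  rw [fnrm_def, wd'_one]; simp [Word.empty]

theorem fnrm_of_mul' (ℓ : F → ℕ) {c : I} {h : F} {x : FP I F} (hx : hd c x = 1) (hh : h ≠ 1) :
    fnrm ℓ (fof c h * x) = ℓ h + fnrm ℓ x := by
  rw [fnrm_def, wd'_cons hx hh, fnrm_def]
  simp [Word.cons]

theorem fnrm_of_mul {ℓ : F → ℕ} (hℓ : IsNorm ℓ) {c : I} (h : F) {x : FP I F} (hx : hd c x = 1) :
    fnrm ℓ (fof c h * x) = ℓ h + fnrm ℓ x := by
  by_cases hh : h = 1
  · subst hh
    rw [map_one, one_mul, (hℓ.eq_zero 1).2 rfl, zero_add]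
  · exact fnrm_of_mul' ℓ hx hh

theorem fnrm_eq {ℓ : F → ℕ} (hℓ : IsNorm ℓ) (c : I) (x : FP I F) :
    fnrm ℓ x = ℓ (hd c x) + fnrm ℓ (tl c x) := by
  conv_lhs => rw [← hd_mul_tl c x]
  exact fnrm_of_mul hℓ _ (hd_tl c x)

theorem fnrm_of {ℓ : F → ℕ} (hℓ : IsNorm ℓ) (c : I) (h : F) : fnrm ℓ (fof c h : FP I F) = ℓ h := by
  have := fnrm_of_mul hℓ (c := c) h (x := (1 : FP I F)) (hd_one c)
  rwa [mul_one, fnrm_one, add_zero] at this

/-- (T4) -/
theorem hd_mul_of_ne (x : FP I F) : ∀ (c c' : I) (s : F), hd c (x * fof c' s) ≠ hd c x →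
    c' = c ∧ tl c x = 1 := by
  induction x using fp_induction with
  | h1 =>
    intro c c' s h
    rw [one_mul, hd_one] at h
    refine ⟨?_, tl_one c⟩
    by_contra hne
    apply h
    by_cases hs : s = 1
    · rw [hs, map_one, hd_one]
    · have := hd_of_mul_ne (c := c) (d := c') (h := s) (x := (1 : FP I F)) (hd_one c') hs
        (Ne.symm hne)
      rwa [mul_one] at this
  | hc d m x hm hx ih =>
    intro c c' s h
    rw [mul_assoc] at h
    by_cases hcd : c = d
    · subst hcd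
      rw [hd_of_mul, hd_of_mul] at h
      have h2 : hd c (x * fof c' s) ≠ hd c x := fun h3 => h (by rw [h3])
      obtain ⟨h3, h4⟩ := ih c c' s h2
      refine ⟨h3, ?_⟩
      rw [tl_of_mul]; exact h4
    · exfalso
      rw [hd_of_mul_ne hx hm hcd] at h
      have h2 : hd d (fof d m * (x * fof c' s)) = 1 := by
        by_contra h3
        exact h (hd_unique h3 hcd)
      rw [hd_of_mul] at h2
      have h3 : hd d (x * fof c' s) ≠ hd d x := by
        rw [hx]
        intro h4
        rw [h4, mul_one] at h2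
        exact hm h2
      obtain ⟨h4, h5⟩ := ih d c' s h3
      have h6 : x = 1 := by
        rw [tl_eq_self hx] at h5; exact h5
      rw [h6, one_mul, h4, hd_of] at h2
      rw [h6, one_mul, h4, ← map_mul, h2, map_one, hd_one] at h
      exact h rfl

/-- additivity of the norm -/
theorem fnrm_mid {ℓ : F → ℕ} (hℓ : IsNorm ℓ) (u : FP I F) : ∀ (c : I) (h : F) (v : FP I F),
    hd c u = 1 → hd c v = 1 → h ≠ 1 → fnrm ℓ (u⁻¹ * (fof c h * v)) = fnrm ℓ u + ℓ h + fnrm ℓ v := by
  induction u using fp_induction with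
  | h1 =>
    intro c h v _ hv hh
    rw [inv_one, one_mul, fnrm_one, zero_add]
    exact fnrm_of_mul' ℓ hv hh
  | hc d k u hk hu ih =>
    intro c h v h1 hv hh
    have hcd : d ≠ c := by
      intro h2
      subst h2
      rw [hd_of_mul, hu, mul_one] at h1
      exact hk h1
    rw [mul_inv_rev, ← map_inv, mul_assoc]
    rw [ih d k⁻¹ (fof c h * v) hu (hd_of_mul_ne hv hh hcd) (by simpa using hk)]
    rw [fnrm_of_mul' ℓ hv hh, fnrm_of_mul' ℓ hu hk, hℓ.inv]
    ring

theorem fnrm_inv {ℓ : F → ℕ} (hℓ : IsNorm ℓ) (x : FP I F) : fnrm ℓ x⁻¹ = fnrm ℓ x := by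
  induction x using fp_induction with
  | h1 => rw [inv_one]
  | hc d k u hk hu _ =>
    rw [mul_inv_rev, ← map_inv]
    have := fnrm_mid hℓ u d k⁻¹ 1 hu (hd_one d) (by simpa using hk)
    rw [mul_one, fnrm_one, add_zero, hℓ.inv] at this
    rw [this, fnrm_of_mul' ℓ hu hk, add_comm]

theorem fnrm_mul_le {ℓ : F → ℕ} (hℓ : IsNorm ℓ) (x : FP I F) : ∀ y : FP I F,
    fnrm ℓ (x * y) ≤ fnrm ℓ x + fnrm ℓ y := by
  induction x using fp_induction with
  | h1 => intro y; rw [one_mul, fnrm_one, zero_add]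
  | hc d k u hk hu ih =>
    intro y
    rw [mul_assoc, fnrm_eq hℓ d (fof d k * (u * y)), hd_of_mul, tl_of_mul,
      fnrm_of_mul' ℓ hu hk]
    have h1 := hℓ.mul_le k (hd d (u * y))
    have h2 := fnrm_eq hℓ d (u * y)
    have h3 := ih y
    omega

theorem fnrm_eq_zero {ℓ : F → ℕ} (hℓ : IsNorm ℓ) (x : FP I F) : fnrm ℓ x = 0 ↔ x = 1 := by
  constructor
  · induction x using fp_induction with
    | h1 => intro _; rfl
    | hc d k u hk hu _ =>
      intro h
      rw [fnrm_of_mul' ℓ hu hk] at h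
      exact absurd ((hℓ.eq_zero k).1 (by omega)) hk
  · rintro rfl; exact fnrm_one ℓ

/-- the norm on the free product is a norm -/
theorem fnrm_isNorm {ℓ : F → ℕ} (hℓ : IsNorm ℓ) : IsNorm (fnrm ℓ : FP I F → ℕ) where
  eq_zero := fnrm_eq_zero hℓ
  inv := fnrm_inv hℓ
  mul_le := fun g h => fnrm_mul_le hℓ g h

/-- (T5) -/
theorem fnrm_sep {ℓ : F → ℕ} (hℓ : IsNorm ℓ) {c : I} {x y : FP I F} (h : hd c x ≠ hd c y) :
    fnrm ℓ (x⁻¹ * y) = fnrm ℓ (tl c x) + ℓ ((hd c x)⁻¹ * hd c y) + fnrm ℓ (tl c y) := by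
  have h1 : x⁻¹ * y = (tl c x)⁻¹ * (fof c ((hd c x)⁻¹ * hd c y) * tl c y) := by
    conv_lhs => rw [← hd_mul_tl c x, ← hd_mul_tl c y]
    rw [map_mul, map_inv]
    group
  rw [h1]
  apply fnrm_mid hℓ _ _ _ _ (hd_tl c x) (hd_tl c y)
  intro h2
  exact h (inv_mul_eq_one.1 h2)

theorem fnrm_sep_le {ℓ : F → ℕ} (hℓ : IsNorm ℓ) (c : I) (x y : FP I F) :
    fnrm ℓ (x⁻¹ * y) ≤ fnrm ℓ (tl c x) + ℓ ((hd c x)⁻¹ * hd c y) + fnrm ℓ (tl c y) := by
  have h1 : x⁻¹ * y = (tl c x)⁻¹ * (fof c ((hd c x)⁻¹ * hd c y) * tl c y) := by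
    conv_lhs => rw [← hd_mul_tl c x, ← hd_mul_tl c y]
    rw [map_mul, map_inv]
    group
  rw [h1]
  have h2 := fnrm_mul_le hℓ (tl c x)⁻¹ (fof c ((hd c x)⁻¹ * hd c y) * tl c y)
  have h3 := fnrm_of_mul hℓ ((hd c x)⁻¹ * hd c y) (hd_tl c y)
  rw [fnrm_inv hℓ] at h2
  omega

/-! ## Permutation of the indices -/

/-- relabelling of the indices -/
noncomputable def pm (e : I → I) : FP I F →* FP I F := Monoid.CoprodI.lift (fun c => fof (e c))

@[simp] theorem pm_of (e : I → I) (c : I) (h : F) : pm e (fof c h) = fof (e c) h := by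
  simp [pm]

theorem pm_comp (e e' : I → I) (x : FP I F) : pm e (pm e' x) = pm (e ∘ e') x := by
  induction x using fp_induction with
  | h1 => simp
  | hc d k u _ _ ih => rw [map_mul, map_mul, map_mul, ih]; simp

theorem pm_id (x : FP I F) : pm id x = x := by
  induction x using fp_induction with
  | h1 => simp
  | hc d k u _ _ ih => rw [map_mul, ih]; simp

theorem pm_hd {e : I → I} (he : Function.Injective e) (x : FP I F) :
    ∀ c, hd (e c) (pm e x) = hd c x := by
  induction x using fp_induction with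
  | h1 => intro c; rw [map_one, hd_one, hd_one]
  | hc d k u hk hu ih =>
    intro c
    rw [map_mul, pm_of]
    by_cases hcd : c = d
    · subst hcd
      rw [hd_of_mul, hd_of_mul, ih]
    · rw [hd_of_mul_ne (by rw [ih]; exact hu) hk (fun h => hcd (he h)),
        hd_of_mul_ne hu hk hcd]

theorem pm_fnrm {e : I → I} (he : Function.Injective e) (ℓ : F → ℕ) (x : FP I F) :
    fnrm ℓ (pm e x) = fnrm ℓ x := by
  induction x using fp_induction with
  | h1 => rw [map_one]
  | hc d k u hk hu ih =>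
    rw [map_mul, pm_of, fnrm_of_mul' ℓ (by rw [pm_hd he]; exact hu) hk, ih, fnrm_of_mul' ℓ hu hk]

theorem pm_tl {e : I → I} (he : Function.Injective e) (x : FP I F) (c : I) :
    tl (e c) (pm e x) = pm e (tl c x) := by
  conv_lhs => rw [← hd_mul_tl c x]
  rw [map_mul, pm_of, tl_of_mul, tl_eq_self]
  rw [pm_hd he, hd_tl]

/-! ## Splitting of reduced words -/

/-- the product of a list of syllables -/
noncomputable def lprod (l : List (Σ _ : I, F)) : FP I F := (l.map fun s => fof s.1 s.2).prod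

@[simp] theorem lprod_nil : lprod ([] : List (Σ _ : I, F)) = 1 := rfl

@[simp] theorem lprod_cons (s : Σ _ : I, F) (l : List (Σ _ : I, F)) :
    lprod (s :: l) = fof s.1 s.2 * lprod l := by simp [lprod]

@[simp] theorem lprod_append (l l' : List (Σ _ : I, F)) :
    lprod (l ++ l') = lprod l * lprod l' := by simp [lprod]

theorem lprod_wd' (x : FP I F) : lprod (wd' x).toList = x := prod_wd' x

/-- reduced lists -/
structure Red (l : List (Σ _ : I, F)) : Prop where
  ne_one : ∀ s ∈ l, Sigma.snd s ≠ 1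
  chain_ne : l.IsChain fun s s' => Sigma.fst s ≠ Sigma.fst s'

theorem Red.fnrm {l : List (Σ _ : I, F)} (hl : Red l) (ℓ : F → ℕ) :
    fnrm ℓ (lprod l) = (l.map fun s => ℓ s.2).sum := by
  have : wd' (lprod l) = ⟨l, hl.ne_one, hl.chain_ne⟩ :=
    wd'_prod (⟨l, hl.ne_one, hl.chain_ne⟩ : Word (fun _ : I => F))
  rw [fnrm_def, this]

theorem Red.hd_eq {l : List (Σ _ : I, F)} (hl : Red l) {c : I}
    (hc : ∀ s ∈ l.head?, c ≠ Sigma.fst s) : hd c (lprod l) = 1 := by
  rw [hd_eq_one_iff]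
  have : wd' (lprod l) = ⟨l, hl.ne_one, hl.chain_ne⟩ :=
    wd'_prod (⟨l, hl.ne_one, hl.chain_ne⟩ : Word (fun _ : I => F))
  rw [this, Word.fstIdx_ne_iff]
  exact hc

theorem red_wd' (x : FP I F) : Red (wd' x).toList := ⟨(wd' x).ne_one, (wd' x).chain_ne⟩

/-- the trivial norm: number of nontrivial syllables -/
noncomputable def ℓ0 (h : F) : ℕ := if h = 1 then 0 else 1

theorem ℓ0_isNorm : IsNorm (ℓ0 : F → ℕ) where
  eq_zero := by intro g; unfold ℓ0; split_ifs with h <;> simp [h]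
  inv := by intro g; unfold ℓ0; simp
  mul_le := by
    intro g h
    unfold ℓ0
    split_ifs with h1 h2 h3 h4 <;> simp_all

/-- splitting of a reduced word at a syllable -/
theorem red_split {l₁ l₂ : List (Σ _ : I, F)} {s : Σ _ : I, F} (h : Red (l₁ ++ s :: l₂)) :
    s.2 ≠ 1 ∧ hd s.1 (lprod l₁)⁻¹ = 1 ∧ hd s.1 (lprod l₂) = 1 ∧
    ∀ ℓ : F → ℕ, fnrm ℓ (lprod l₁) = (l₁.map fun s => ℓ s.2).sum ∧
      fnrm ℓ (lprod l₂) = (l₂.map fun s => ℓ s.2).sum := by
  have h1 : Red l₁ := ⟨fun s hs => h.ne_one s (by simp [hs]), h.chain_ne.left_of_append⟩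
  have hs2 : Red (s :: l₂) :=
    ⟨fun t ht => h.ne_one t (List.mem_append_right _ ht), h.chain_ne.right_of_append⟩
  have h2 : Red l₂ := ⟨fun t ht => hs2.ne_one t (List.mem_cons_of_mem _ ht), hs2.chain_ne.tail⟩
  have h3 : Red (l₁ ++ [s]) := by
    have h4 : l₁ ++ s :: l₂ = (l₁ ++ [s]) ++ l₂ := by simp
    rw [h4] at h
    exact ⟨fun t ht => h.ne_one t (List.mem_append_left _ ht), h.chain_ne.left_of_append⟩
  have hs1 : s.2 ≠ 1 := hs2.ne_one s (by simp)
  refine ⟨hs1, ?_, ?_, fun ℓ => ⟨h1.fnrm ℓ, h2.fnrm ℓ⟩⟩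
  · by_contra hne
    have e1 := h1.fnrm (ℓ0 : F → ℕ)
    have e3 := h3.fnrm (ℓ0 : F → ℕ)
    rw [lprod_append, lprod_cons, lprod_nil, mul_one, List.map_append, List.sum_append,
      ← e1] at e3
    simp only [List.map_cons, List.map_nil, List.sum_cons, List.sum_nil, add_zero] at e3
    -- invert
    rw [← fnrm_inv ℓ0_isNorm (lprod l₁ * _), mul_inv_rev, ← map_inv,
      ← fnrm_inv ℓ0_isNorm (lprod l₁), fnrm_eq ℓ0_isNorm s.1 (lprod l₁)⁻¹,
      fnrm_eq ℓ0_isNorm s.1 (fof s.1 (s.2)⁻¹ * (lprod l₁)⁻¹), hd_of_mul, tl_of_mul] at e3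
    have e4 : ℓ0 ((s.2)⁻¹ * hd s.1 (lprod l₁)⁻¹) ≤ 1 := by unfold ℓ0; split_ifs <;> simp
    have e5 : ℓ0 (hd s.1 (lprod l₁)⁻¹) = 1 := by unfold ℓ0; rw [if_neg hne]
    have e6 : ℓ0 s.2 = 1 := by unfold ℓ0; rw [if_neg hs1]
    omega
  · apply h2.hd_eq
    intro t ht
    have := hs2.chain_ne
    rw [List.isChain_cons] at this
    exact this.1 t ht

end Toolkit

end CQ
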